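import Pool.Agent.Helper56.TOF.Goals
import Mathlib

/-! Packet BIR of project TOF (MP_f32c9c_an): many passes of a typical orbit. -/

set_option autoImplicit false

open Set Filter Topology MeasureTheory

open scoped ContDiff

namespace Pool.Agent.Helper85.TOF

open Pool.Agent.Helper56.RZ Pool.Agent.Helper30.CIR Pool.Agent.Helper56.TOF

theorem flow_iter {K : ℕ} {s : WithTop ℕ∞} {M : Set (E K)} {A : ℝ → E K → E K}
    (hA : Flow s M A) {x : E K} (hx : x ∈ M) (k : ℕ) : (A 1)^[k] x = A k x := by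
  induction k with
  | zero => simp [hA.zero x hx]
  | succ k ih =>
    rw [Function.iterate_succ_apply', ih, ← hA.add 1 k x hx]
    push_cast
    rw [add_comm]

theorem am_nonneg {K : ℕ} (B : E K → ℝ) (b0 : ℝ) (x : E K) : 0 ≤ am B b0 x :=
  Real.smoothTransition.nonneg _

theorem am_le_one {K : ℕ} (B : E K → ℝ) (b0 : ℝ) (x : E K) : am B b0 x ≤ 1 :=
  Real.smoothTransition.le_one _

theorem am_sq_le_one {K : ℕ} (B : E K → ℝ) (b0 : ℝ) (x : E K) : am B b0 x ^ 2 ≤ 1 := by
  have h0 := am_nonneg B b0 x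
  have h1 := am_le_one B b0 x
  nlinarith

/-- the centre next to a point with `b ≠ 0` -/
theorem centre_of_b {K : ℕ} {s : WithTop ℕ∞} {M : Set (E K)} {A : ℝ → E K → E K}
    {b B tau : E K → ℝ} {p : E K} (hA : Flow s M A) (hB : Box s M A b B tau p)
    {x : E K} (hx : x ∈ M) (k : ℝ) (hb : b (A k x) ≠ 0) :
    ∃ t, |t - k| ≤ 1 / 10 ∧ Centre A B tau x t ∧ B (A t x) = B (A k x) := by
  have hkM : A k x ∈ M := hA.maps k hx
  obtain ⟨hBp, htau⟩ := hB.near _ hkM hb
  have h1 : |tau (A k x)| ≤ 7 / 2 := by linarith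
  have h2 : |tau (A k x) + -tau (A k x)| ≤ 7 / 2 := by
    rw [add_neg_cancel, abs_zero]; norm_num
  obtain ⟨e1, e2⟩ := hB.eqv _ hkM (-tau (A k x)) hBp h1 h2
  have h3 : A (k - tau (A k x)) x = A (-tau (A k x)) (A k x) := by
    rw [← hA.add _ _ x hx]; congr 1; ring
  refine ⟨k - tau (A k x), ?_, ⟨?_, ?_⟩, ?_⟩
  · have : k - tau (A k x) - k = - tau (A k x) := by ring
    rw [this, abs_neg]; exact htau
  · rw [h3, e1]; exact hBp
  · rw [h3, e2]; ring
  · rw [h3, e1]

theorem gBIR : StmtBIR := by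
  intro K s M A b B tau p b0 μ hM hA hB hb0 hBp hμ hμM hpM hsupp
  have : IsProbabilityMeasure μ := hμ
  -- the test function
  set b2 : E K → ℝ := fun x => b x * am B b0 x ^ 2 with hb2
  have hamc : ContinuousOn (am B b0) M := by
    unfold am
    exact Real.smoothTransition.continuous.comp_continuousOn
      ((hB.Bsm.continuousOn.div_const b0).sub continuousOn_const)
  have hb2c : ContinuousOn b2 M := hB.bcont.mul (hamc.pow 2)
  have hb2nn : ∀ x ∈ M, 0 ≤ b2 x := fun x hx => mul_nonneg (hB.b01 x hx).1 (sq_nonneg _)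
  have hb2am : ∀ x ∈ M, b2 x ≤ am B b0 x ^ 2 := fun x hx => by
    have := mul_le_mul_of_nonneg_right (hB.b01 x hx).2 (sq_nonneg (am B b0 x))
    simpa [hb2] using this
  have hb21 : ∀ x ∈ M, b2 x ≤ 1 := fun x hx => (hb2am x hx).trans (am_sq_le_one B b0 x)
  have hMm : MeasurableSet M := hM.isClosed.measurableSet
  have hrestr : μ.restrict M = μ := by
    apply Measure.restrict_eq_self_of_ae_mem
    rw [ae_iff]
    exact hμM
  have haeM : ∀ᵐ x ∂μ, x ∈ M := by rw [ae_iff]; exact hμM
  have hb2m : AEStronglyMeasurable b2 μ := by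
    rw [← hrestr]
    exact hb2c.aestronglyMeasurable hMm
  have hb2i : Integrable b2 μ := by
    refine Integrable.mono' (integrable_const (1 : ℝ)) hb2m ?_
    filter_upwards [haeM] with x hx
    rw [Real.norm_eq_abs, abs_of_nonneg (hb2nn x hx)]
    exact hb21 x hx
  -- positivity at `p`
  have hamp : am B b0 p = 1 := by
    unfold am
    apply Real.smoothTransition.one_of_one_le
    have : 2 ≤ B p / b0 := by rw [le_div_iff₀ hb0]; exact hBp
    linarith
  have hb2p : 0 < b2 p := by
    simp only [hb2, hamp]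
    simpa using hB.bp
  have hIpos : 0 < ∫ y, b2 y ∂μ := by
    rw [integral_pos_iff_support_of_nonneg_ae ?_ hb2i]
    · -- the support of `b2` contains a neighbourhood of `p` in `M`
      have hev : ∀ᶠ x in 𝓝[M] p, 0 < b2 x := (hb2c p hpM).eventually (lt_mem_nhds hb2p)
      rw [eventually_nhdsWithin_iff, eventually_nhds_iff] at hev
      obtain ⟨U, hU, hUo, hpU⟩ := hev
      have h1 : μ (U ∩ M) = μ U := by
        rw [← Measure.restrict_apply hUo.measurableSet, hrestr]
      have h2 : μ U ≠ 0 := hsupp U hUo hpU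
      have h3 : U ∩ M ⊆ Function.support b2 := fun x hx => (hU x hx.1 hx.2).ne'
      calc 0 < μ U := pos_iff_ne_zero.2 h2
        _ = μ (U ∩ M) := h1.symm
        _ ≤ _ := measure_mono h3
    · filter_upwards [haeM] with x hx
      exact hb2nn x hx
  have hI1 : ∫ y, b2 y ∂μ ≤ 1 := by
    calc ∫ y, b2 y ∂μ ≤ ∫ _y, (1 : ℝ) ∂μ := by
          apply integral_mono_ae hb2i (integrable_const _)
          filter_upwards [haeM] with x hx
          exact hb21 x hx
      _ = 1 := by simp
  set I := ∫ y, b2 y ∂μ with hI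
  refine ⟨I / 2, by linarith, by linarith, ?_⟩
  intro x hx hbas
  have hlim := hbas b2 hb2c
  have hev : ∀ᶠ n : ℕ in atTop, I / 2 * n ≤ ∑ k ∈ Finset.range n, b2 (A k x) := by
    have h1 : ∀ᶠ n : ℕ in atTop, I / 2 < (∑ k ∈ Finset.range n, b2 ((A 1)^[k] x)) / n :=
      hlim.eventually (lt_mem_nhds (by linarith))
    filter_upwards [h1, eventually_gt_atTop 0] with n hn hn0
    have hn0' : (0 : ℝ) < n := by exact_mod_cast hn0
    rw [lt_div_iff₀ hn0'] at hn
    have h2 : ∑ k ∈ Finset.range n, b2 ((A 1)^[k] x) = ∑ k ∈ Finset.range n, b2 (A k x) :=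
      Finset.sum_congr rfl fun k _ => by rw [flow_iter hA hx k]
    rw [h2] at hn
    exact hn.le
  have hbne : ∀ k : ℕ, b2 (A k x) ≠ 0 → b (A k x) ≠ 0 := fun k hk h0 => hk (by simp [hb2, h0])
  have hkM : ∀ k : ℕ, A k x ∈ M := fun k => hA.maps k hx
  constructor
  · -- centres are unbounded
    intro C
    by_contra hno
    push Not at hno
    obtain ⟨N, hN⟩ := exists_nat_gt (C + 1)
    have hz : ∀ k : ℕ, N ≤ k → b2 (A k x) = 0 := by
      intro k hk
      by_contra hne
      obtain ⟨t, ht, hc, -⟩ := centre_of_b hA hB hx k (hbne k hne)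
      refine hno t ?_ hc
      have hk' : (N : ℝ) ≤ k := by exact_mod_cast hk
      have := (abs_le.1 ht).1
      linarith
    obtain ⟨N1, hN1⟩ := exists_nat_gt ((N : ℝ) / (I / 2))
    have hIh : 0 < I / 2 := by linarith
    rw [div_lt_iff₀ hIh] at hN1
    obtain ⟨n, hn1, hn2⟩ := (hev.and (eventually_ge_atTop (max N N1))).exists
    have hNn : N ≤ n := (le_max_left _ _).trans hn2
    have hN1n : (N1 : ℝ) ≤ n := by exact_mod_cast (le_max_right _ _).trans hn2
    have hs : ∑ k ∈ Finset.range n, b2 (A k x) ≤ N := by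
      rw [← Finset.sum_subset (Finset.range_subset_range.2 hNn)]
      · calc ∑ k ∈ Finset.range N, b2 (A k x) ≤ ∑ _k ∈ Finset.range N, (1 : ℝ) :=
              Finset.sum_le_sum fun k _ => hb21 _ (hkM k)
          _ = N := by simp
      · intro k _ hk
        exact hz k (by simpa using hk)
    nlinarith
  · intro a ha
    filter_upwards [hev] with n hn
    refine hn.trans ?_
    classical
    -- restrict to the times with `b2 ≠ 0`
    set T : Finset ℕ := (Finset.range n).filter (fun k : ℕ => b2 (A (k : ℝ) x) ≠ 0) with hT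
    have hsum : ∑ k ∈ Finset.range n, b2 (A (k : ℝ) x) = ∑ k ∈ T, b2 (A ((k : ℕ) : ℝ) x) :=
      (Finset.sum_filter_ne_zero (Finset.range n)).symm
    have hex : ∀ k : ℕ, k ∈ T → ∃ i : ℕ, |a i - (k : ℝ)| ≤ 1 / 10 ∧
        B (A (a i) x) = B (A (k : ℝ) x) := by
      intro k hk
      have hk2 := (Finset.mem_filter.1 hk).2
      obtain ⟨t, ht, hc, hBt⟩ := centre_of_b hA hB hx k (hbne k hk2)
      have hk0 : (0 : ℝ) ≤ k := Nat.cast_nonneg k
      obtain ⟨i, rfl⟩ := ha.all t (by have := (abs_le.1 ht).1; linarith) hc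
      exact ⟨i, ht, hBt⟩
    choose! e he1 he2 using hex
    have hai : ∀ i : ℕ, 3 + 7 * (i : ℝ) ≤ a i := by
      intro i
      induction i with
      | zero => simpa using ha.a0
      | succ i ih =>
        have := ha.gap i
        push_cast
        linarith
    have hinj : Set.InjOn e T := by
      intro k hk l hl hkl
      have h1 := abs_le.1 (he1 k hk)
      have h2 := abs_le.1 (he1 l hl)
      rw [hkl] at h1
      have h3 : |(k : ℝ) - l| < 1 := by
        rw [abs_lt]; constructor <;> linarith [h1.1, h1.2, h2.1, h2.2]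
      by_contra hne
      rcases lt_or_gt_of_ne hne with h | h
      · have : (k : ℝ) + 1 ≤ l := by exact_mod_cast h
        have := (abs_lt.1 h3).1
        linarith
      · have : (l : ℝ) + 1 ≤ k := by exact_mod_cast h
        have := (abs_lt.1 h3).2
        linarith
    have himg : T.image e ⊆ (Finset.range n).filter (fun i => a i < n) := by
      intro i hi
      obtain ⟨k, hk, rfl⟩ := Finset.mem_image.1 hi
      have hkn : k < n := Finset.mem_range.1 (Finset.mem_filter.1 hk).1
      have hkn' : (k : ℝ) + 1 ≤ n := by exact_mod_cast hkn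
      have h1 := (abs_le.1 (he1 k hk)).2
      have h2 : a (e k) < n := by linarith
      have h3 := hai (e k)
      have h4 : ((e k : ℕ) : ℝ) < n := by
        have : (0 : ℝ) ≤ (e k : ℕ) := Nat.cast_nonneg _
        linarith
      exact Finset.mem_filter.2 ⟨Finset.mem_range.2 (by exact_mod_cast h4), h2⟩
    calc ∑ k ∈ Finset.range n, b2 (A (k : ℝ) x) = ∑ k ∈ T, b2 (A ((k : ℕ) : ℝ) x) := hsum
      _ ≤ ∑ k ∈ T, am B b0 (A (a (e k)) x) ^ 2 := by
          refine Finset.sum_le_sum fun k hk => ?_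
          have h1 : am B b0 (A (a (e k)) x) = am B b0 (A k x) := by
            unfold am; rw [he2 k hk]
          rw [h1]
          exact hb2am _ (hkM k)
      _ = ∑ i ∈ T.image e, am B b0 (A (a i) x) ^ 2 := 
          (Finset.sum_image (f := fun i => am B b0 (A (a i) x) ^ 2) hinj).symm
      _ ≤ _ := Finset.sum_le_sum_of_subset_of_nonneg himg fun i _ _ => sq_nonneg _

end Pool.Agent.Helper85.TOF
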